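import Mathlib

/-!
# A Hilbert function on the integers whose cyclic system is not Hilbert representable

Let `D = {3 ^ k : k ≥ 0} ∪ {- 3 ^ k : k ≥ 0}` and let `f` be the characteristic function of `D`.

* `f` is a Hilbert function.  Let `w n` be the number of nonzero digits of `n` in balanced ternary.
  The function `φ n = 2 ^ (- w n)` is positive definite (it is the limit of the normalised
  autocorrelations of the finite sets of sums of distinct powers of three `3 ^ k`, `k < K`).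
  So there are a unitary `U` and a unit vector `ξ` of a Hilbert space with `⟪ξ, U ^ n ξ⟫ = φ n`,
  and `f n = F ⟪ξ, U ^ n ξ⟫` for a continuous function `F` which vanishes at `1` and on
  `[0, 1 / 4]` and is `1` at `1 / 2`.
* The cyclic system `X_f` is not Hilbert representable.  Indeed `σ ^ (3 ^ k) f → δ_0` and
  `σ ^ (3 ^ k) δ_0 → 0` as `k → ∞`.  In a Hilbert representation the first limit would be the value
  of a normal contraction at a vector, and the second would say that its square vanishes there.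
-/

set_option autoImplicit false

open scoped ComplexConjugate ComplexOrder InnerProductSpace
open Filter Topology

namespace Pool.Agent.Results.MP_4abea4_an.CharacteristicFunction

universe u v

/-! ## Definitions used in the statement -/

/-- `(X, T)` is Hilbert representable over the scalar field `𝕜` (real or complex): there are a
Hilbert space `H` (in the universe `u`), a unitary operator `U` of `H` and an embedding
`α : X → H`, for the weak topology of `H`, with `α (T x) = U (α x)`. -/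
def HilbertRepresentable (𝕜 : Type) [RCLike 𝕜] {X : Type v} [TopologicalSpace X]
    (T : X ≃ₜ X) : Prop :=
  ∃ (H : Type u) (_ : NormedAddCommGroup H) (_ : InnerProductSpace 𝕜 H) (_ : CompleteSpace H)
    (U : H ≃ₗᵢ[𝕜] H) (α : X → WeakSpace 𝕜 H),
    IsEmbedding α ∧ ∀ x, (toWeakSpace 𝕜 H).symm (α (T x)) = U ((toWeakSpace 𝕜 H).symm (α x))

/-- `f : ℤ → ℝ` is a Hilbert function (over `𝕜`): there are a compact Hausdorff space `X`, a
homeomorphism `T` of `X` such that `(X, T)` is Hilbert representable, a point `x₀` and a continuous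
function `F : X → ℝ` with `f n = F (T ^ n x₀)` for all integers `n`. -/
def IsHilbertFunction (𝕜 : Type) [RCLike 𝕜] (f : ℤ → ℝ) : Prop :=
  ∃ (X : Type v) (_ : TopologicalSpace X) (_ : CompactSpace X) (_ : T2Space X) (T : X ≃ₜ X)
    (x₀ : X) (F : X → ℝ), HilbertRepresentable.{u, v} 𝕜 T ∧ Continuous F ∧
      ∀ n : ℤ, f n = F ((T ^ n : X ≃ₜ X) x₀)

/-- The translate `f ∘ T ^ n : m ↦ f (m + n)`. -/
def translate (f : ℤ → ℝ) (n : ℤ) : ℤ → ℝ := fun m => f (m + n)

/-- The underlying set of the cyclic system of `f`, the closure in `ℤ → ℝ` (pointwise topology)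
of the set of all translates of `f`. -/
def cyclicSet (f : ℤ → ℝ) : Set (ℤ → ℝ) := closure (Set.range (translate f))

/-- The shift homeomorphism `g ↦ (m ↦ g (m + 1))` of `ℤ → ℝ`. -/
def shift : (ℤ → ℝ) ≃ₜ (ℤ → ℝ) where
  toFun g := fun m => g (m + 1)
  invFun g := fun m => g (m - 1)
  left_inv g := by funext m; simp
  right_inv g := by funext m; simp
  continuous_toFun := by fun_prop
  continuous_invFun := by fun_prop

lemma shift_apply (g : ℤ → ℝ) (m : ℤ) : shift g m = g (m + 1) := rfl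

lemma shift_translate (f : ℤ → ℝ) (n : ℤ) : shift (translate f n) = translate f (n + 1) := by
  funext m
  simp only [shift_apply, translate]
  ring_nf

lemma shift_image_range (f : ℤ → ℝ) :
    shift '' Set.range (translate f) = Set.range (translate f) := by
  ext g
  constructor
  · rintro ⟨_, ⟨n, rfl⟩, rfl⟩
    exact ⟨n + 1, (shift_translate f n).symm⟩
  · rintro ⟨n, rfl⟩
    exact ⟨_, ⟨n - 1, rfl⟩, by rw [shift_translate]; simp⟩

lemma shift_preimage_cyclicSet (f : ℤ → ℝ) : shift ⁻¹' (cyclicSet f) = cyclicSet f := by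
  unfold cyclicSet
  rw [shift.preimage_closure]
  congr 1
  rw [← shift_image_range f, shift.preimage_image, shift_image_range]

/-- The cyclic system `(X_f, σ)`: the shift as a homeomorphism of `X_f`. -/
def cyclicShift (f : ℤ → ℝ) : cyclicSet f ≃ₜ cyclicSet f :=
  shift.subtype (fun g => by
    conv_lhs => rw [← shift_preimage_cyclicSet f]
    rfl)

@[simp] lemma cyclicShift_coe (f : ℤ → ℝ) (g : cyclicSet f) (m : ℤ) :
    (cyclicShift f g : ℤ → ℝ) m = (g : ℤ → ℝ) (m + 1) := rfl

/-- The set `D = {3 ^ k : k ≥ 0} ∪ {- 3 ^ k : k ≥ 0}` of integers. -/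
def D : Set ℤ := {n | ∃ k : ℕ, n = 3 ^ k ∨ n = -3 ^ k}

/-! ## The positive definite function -/

/-- Sums of distinct powers of three `3 ^ k`, `k < K`. -/
def S : ℕ → Finset ℤ
  | 0 => {0}
  | K + 1 => (S K).image (fun x => 3 * x) ∪ (S K).image (fun x => 3 * x + 1)

lemma mem_S_succ (K : ℕ) (x : ℤ) :
    x ∈ S (K + 1) ↔ (∃ y ∈ S K, 3 * y = x) ∨ (∃ y ∈ S K, 3 * y + 1 = x) := by
  simp [S]

/-- autocorrelation of `S K` -/
def N (K : ℕ) (n : ℤ) : ℕ := ((S K).filter (fun x => x + n ∈ S K)).card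

lemma N_zero (n : ℤ) : N 0 n = if n = 0 then 1 else 0 := by
  have h0 : S 0 = {0} := rfl
  unfold N
  rw [h0]
  split_ifs with h
  · subst h; decide
  · simp [h]

lemma N_succ_mul (K : ℕ) (n : ℤ) : N (K + 1) (3 * n) = 2 * N K n := by
  have h : (S (K + 1)).filter (fun x => x + 3 * n ∈ S (K + 1)) =
      ((S K).filter (fun x => x + n ∈ S K)).image (fun x => 3 * x) ∪
      ((S K).filter (fun x => x + n ∈ S K)).image (fun x => 3 * x + 1) := by
    ext x
    simp only [Finset.mem_filter, mem_S_succ, Finset.mem_union, Finset.mem_image]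
    constructor
    · rintro ⟨⟨y, hy, rfl⟩ | ⟨y, hy, rfl⟩, ⟨z, hz, h⟩ | ⟨z, hz, h⟩⟩
      · left
        have : z = y + n := by omega
        subst this
        exact ⟨y, ⟨hy, hz⟩, rfl⟩
      · omega
      · omega
      · right
        have : z = y + n := by omega
        subst this
        exact ⟨y, ⟨hy, hz⟩, rfl⟩
    · rintro (⟨y, ⟨hy, hz⟩, rfl⟩ | ⟨y, ⟨hy, hz⟩, rfl⟩)
      · exact ⟨Or.inl ⟨y, hy, rfl⟩, Or.inl ⟨y + n, hz, by ring⟩⟩
      · exact ⟨Or.inr ⟨y, hy, rfl⟩, Or.inr ⟨y + n, hz, by ring⟩⟩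
  unfold N
  rw [h, Finset.card_union_of_disjoint, Finset.card_image_of_injective,
    Finset.card_image_of_injective]
  · ring
  · intro a b hab; simp only at hab; omega
  · intro a b hab; simp only at hab; omega
  · rw [Finset.disjoint_left]
    intro x hx hx'
    simp only [Finset.mem_image] at hx hx'
    obtain ⟨a, _, ha⟩ := hx
    obtain ⟨b, _, hb⟩ := hx'
    omega

lemma N_succ_add (K : ℕ) (n : ℤ) : N (K + 1) (3 * n + 1) = N K n := by
  have h : (S (K + 1)).filter (fun x => x + (3 * n + 1) ∈ S (K + 1)) =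
      ((S K).filter (fun x => x + n ∈ S K)).image (fun x => 3 * x) := by
    ext x
    simp only [Finset.mem_filter, mem_S_succ, Finset.mem_image]
    constructor
    · rintro ⟨⟨y, hy, rfl⟩ | ⟨y, hy, rfl⟩, ⟨z, hz, h⟩ | ⟨z, hz, h⟩⟩
      · omega
      · have : z = y + n := by omega
        subst this
        exact ⟨y, ⟨hy, hz⟩, rfl⟩
      · omega
      · omega
    · rintro ⟨y, ⟨hy, hz⟩, rfl⟩
      · exact ⟨Or.inl ⟨y, hy, rfl⟩, Or.inr ⟨y + n, hz, by ring⟩⟩
  unfold N
  rw [h, Finset.card_image_of_injective]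
  intro a b hab; simp only at hab; omega

lemma N_succ_sub (K : ℕ) (n : ℤ) : N (K + 1) (3 * n - 1) = N K n := by
  have h : (S (K + 1)).filter (fun x => x + (3 * n - 1) ∈ S (K + 1)) =
      ((S K).filter (fun x => x + n ∈ S K)).image (fun x => 3 * x + 1) := by
    ext x
    simp only [Finset.mem_filter, mem_S_succ, Finset.mem_image]
    constructor
    · rintro ⟨⟨y, hy, rfl⟩ | ⟨y, hy, rfl⟩, ⟨z, hz, h⟩ | ⟨z, hz, h⟩⟩
      · omega
      · omega
      · have : z = y + n := by omega
        subst this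
        exact ⟨y, ⟨hy, hz⟩, rfl⟩
      · omega
    · rintro ⟨y, ⟨hy, hz⟩, rfl⟩
      · exact ⟨Or.inr ⟨y, hy, rfl⟩, Or.inl ⟨y + n, hz, by ring⟩⟩
  unfold N
  rw [h, Finset.card_image_of_injective]
  intro a b hab; simp only at hab; omega

/-- normalised autocorrelation -/
noncomputable def rho (K : ℕ) (n : ℤ) : ℝ := N K n / 2 ^ K

lemma rho_zero (n : ℤ) : rho 0 n = if n = 0 then 1 else 0 := by
  simp [rho, N_zero]

lemma rho_succ_mul (K : ℕ) (n : ℤ) : rho (K + 1) (3 * n) = rho K n := by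
  simp only [rho, N_succ_mul, pow_succ]
  push_cast
  field_simp

lemma rho_succ_add (K : ℕ) (n : ℤ) : rho (K + 1) (3 * n + 1) = rho K n / 2 := by
  simp only [rho, N_succ_add, pow_succ]
  field_simp

lemma rho_succ_sub (K : ℕ) (n : ℤ) : rho (K + 1) (3 * n - 1) = rho K n / 2 := by
  simp only [rho, N_succ_sub, pow_succ]
  field_simp

/-- every integer is `3 n'`, `3 n' + 1` or `3 n' - 1` -/
lemma trichotomy (n : ℤ) : (∃ m, n = 3 * m) ∨ (∃ m, n = 3 * m + 1) ∨ (∃ m, n = 3 * m - 1) := by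
  have : n % 3 = 0 ∨ n % 3 = 1 ∨ n % 3 = 2 := by omega
  rcases this with h | h | h
  · exact Or.inl ⟨n / 3, by omega⟩
  · exact Or.inr (Or.inl ⟨n / 3, by omega⟩)
  · exact Or.inr (Or.inr ⟨n / 3 + 1, by omega⟩)

lemma rho_succ_eq (K : ℕ) : ∀ n : ℤ, n.natAbs ≤ K → rho (K + 1) n = rho K n := by
  induction K with
  | zero =>
    intro n hn
    have : n = 0 := by omega
    subst this
    have := rho_succ_mul 0 0
    simpa using this
  | succ K ih =>
    intro n hn
    rcases trichotomy n with ⟨m, rfl⟩ | ⟨m, rfl⟩ | ⟨m, rfl⟩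
    · rw [rho_succ_mul, rho_succ_mul, ih m (by omega)]
    · rw [rho_succ_add, rho_succ_add, ih m (by omega)]
    · rw [rho_succ_sub, rho_succ_sub, ih m (by omega)]

/-- `φ n = 2 ^ (- w n)` where `w n` is the number of nonzero balanced ternary digits of `n`. -/
noncomputable def phi (n : ℤ) : ℝ := rho n.natAbs n

lemma rho_eq_phi (K : ℕ) (n : ℤ) (h : n.natAbs ≤ K) : rho K n = phi n := by
  induction K, h using Nat.le_induction with
  | base => rfl
  | succ K hK ih => rw [rho_succ_eq K n hK, ih]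

lemma phi_zero : phi 0 = 1 := by simp [phi, rho_zero]

lemma phi_mul (n : ℤ) : phi (3 * n) = phi n := by
  rw [← rho_eq_phi ((3 * n).natAbs + 1) (3 * n) (by omega), rho_succ_mul, rho_eq_phi]
  omega

lemma phi_add (n : ℤ) : phi (3 * n + 1) = phi n / 2 := by
  rw [← rho_eq_phi ((3 * n + 1).natAbs + 1) (3 * n + 1) (by omega), rho_succ_add, rho_eq_phi]
  omega

lemma phi_sub (n : ℤ) : phi (3 * n - 1) = phi n / 2 := by
  rw [← rho_eq_phi ((3 * n - 1).natAbs + 1) (3 * n - 1) (by omega), rho_succ_sub, rho_eq_phi]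
  omega

/-- Strong induction along balanced ternary digits. -/
lemma ternary_induction (P : ℤ → Prop) (h0 : P 0) (hm : ∀ n, n ≠ 0 → P n → P (3 * n))
    (ha : ∀ n, P n → P (3 * n + 1)) (hs : ∀ n, P n → P (3 * n - 1)) (n : ℤ) : P n := by
  suffices ∀ k : ℕ, ∀ n : ℤ, n.natAbs ≤ k → P n from this n.natAbs n le_rfl
  intro k
  induction k with
  | zero =>
    intro n hn
    have : n = 0 := by omega
    subst this
    exact h0
  | succ k ih =>
    intro n hn
    rcases trichotomy n with ⟨m, rfl⟩ | ⟨m, rfl⟩ | ⟨m, rfl⟩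
    · by_cases h : m = 0
      · subst h; simpa using h0
      · exact hm m h (ih m (by omega))
    · exact ha m (ih m (by omega))
    · exact hs m (ih m (by omega))

lemma phi_neg (n : ℤ) : phi (-n) = phi n := by
  induction n using ternary_induction with
  | h0 => simp
  | hm n _ ih => rw [show -(3 * n) = 3 * (-n) by ring, phi_mul, phi_mul, ih]
  | ha n ih => rw [show -(3 * n + 1) = 3 * (-n) - 1 by ring, phi_sub, phi_add, ih]
  | hs n ih => rw [show -(3 * n - 1) = 3 * (-n) + 1 by ring, phi_sub, phi_add, ih]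

lemma phi_pos (n : ℤ) : 0 < phi n := by
  induction n using ternary_induction with
  | h0 => simp [phi_zero]
  | hm n _ ih => rwa [phi_mul]
  | ha n ih => rw [phi_add]; linarith
  | hs n ih => rw [phi_sub]; linarith

lemma phi_le_one (n : ℤ) : phi n ≤ 1 := by
  induction n using ternary_induction with
  | h0 => simp [phi_zero]
  | hm n _ ih => rwa [phi_mul]
  | ha n ih => rw [phi_add]; linarith
  | hs n ih => rw [phi_sub]; linarith

lemma phi_le_half (n : ℤ) (hn : n ≠ 0) : phi n ≤ 1 / 2 := by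
  induction n using ternary_induction with
  | h0 => simp at hn
  | hm n h ih => rw [phi_mul]; exact ih h
  | ha n ih => rw [phi_add]; linarith [phi_le_one n]
  | hs n ih => rw [phi_sub]; linarith [phi_le_one n]

lemma phi_dichotomy (n : ℤ) (hn : n ≠ 0) : (n ∈ D ∧ phi n = 1 / 2) ∨ (n ∉ D ∧ phi n ≤ 1 / 4) := by
  induction n using ternary_induction with
  | h0 => simp at hn
  | hm n h ih =>
    rw [phi_mul]
    rcases ih h with ⟨⟨k, hk⟩, h2⟩ | ⟨h1, h2⟩
    · refine Or.inl ⟨⟨k + 1, ?_⟩, h2⟩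
      rcases hk with rfl | rfl
      · left; ring
      · right; ring
    · refine Or.inr ⟨?_, h2⟩
      rintro ⟨k, hk⟩
      apply h1
      cases k with
      | zero => simp at hk; omega
      | succ k =>
        refine ⟨k, ?_⟩
        rw [pow_succ] at hk
        omega
  | ha n ih =>
    rw [phi_add]
    by_cases h : n = 0
    · subst h
      left
      exact ⟨⟨0, by simp⟩, by simp [phi_zero]⟩
    · right
      refine ⟨?_, by linarith [phi_le_half n h]⟩
      rintro ⟨k, hk⟩
      cases k with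
      | zero => simp at hk; omega
      | succ k => rw [pow_succ] at hk; omega
  | hs n ih =>
    rw [phi_sub]
    by_cases h : n = 0
    · subst h
      left
      exact ⟨⟨0, by simp⟩, by simp [phi_zero]⟩
    · right
      refine ⟨?_, by linarith [phi_le_half n h]⟩
      rintro ⟨k, hk⟩
      cases k with
      | zero => simp at hk; omega
      | succ k => rw [pow_succ] at hk; omega

lemma eventually_phi (m : ℤ) : ∀ᶠ k : ℕ in Filter.atTop, phi (m + 3 ^ k) = phi m / 2 := by
  induction m using ternary_induction with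
  | h0 =>
    refine Filter.Eventually.of_forall (fun k => ?_)
    rw [zero_add, phi_zero]
    induction k with
    | zero =>
      have := phi_add 0
      simpa [phi_zero] using this
    | succ k ih => rw [pow_succ, mul_comm, phi_mul, ih]
  | hm n _ ih =>
    rw [phi_mul]
    rw [Filter.eventually_atTop] at ih ⊢
    obtain ⟨a, ha⟩ := ih
    refine ⟨a + 1, fun k hk => ?_⟩
    obtain ⟨j, rfl⟩ : ∃ j, k = j + 1 := ⟨k - 1, by omega⟩
    rw [← ha j (by omega), show 3 * n + 3 ^ (j + 1) = 3 * (n + 3 ^ j) by ring, phi_mul]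
  | ha n ih =>
    rw [phi_add]
    rw [Filter.eventually_atTop] at ih ⊢
    obtain ⟨a, ha⟩ := ih
    refine ⟨a + 1, fun k hk => ?_⟩
    obtain ⟨j, rfl⟩ : ∃ j, k = j + 1 := ⟨k - 1, by omega⟩
    rw [show 3 * n + 1 + 3 ^ (j + 1) = 3 * (n + 3 ^ j) + 1 by ring, phi_add, ha j (by omega)]
  | hs n ih =>
    rw [phi_sub]
    rw [Filter.eventually_atTop] at ih ⊢
    obtain ⟨a, ha⟩ := ih
    refine ⟨a + 1, fun k hk => ?_⟩
    obtain ⟨j, rfl⟩ : ∃ j, k = j + 1 := ⟨k - 1, by omega⟩
    rw [show 3 * n - 1 + 3 ^ (j + 1) = 3 * (n + 3 ^ j) - 1 by ring, phi_sub, ha j (by omega)]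

/-- `N K (m - n)` as a sum of products over a large enough window `W`. -/
lemma N_gram (K : ℕ) (m n : ℤ) (W : Finset ℤ) (hW : ∀ y ∈ S K, m + y ∈ W) :
    (N K (m - n) : ℝ) = ∑ x ∈ W, (if x - m ∈ S K then (1 : ℝ) else 0) *
      (if x - n ∈ S K then (1 : ℝ) else 0) := by
  have : ∀ x, (if x - m ∈ S K then (1 : ℝ) else 0) * (if x - n ∈ S K then (1 : ℝ) else 0) =
      if (x - m ∈ S K ∧ x - n ∈ S K) then 1 else 0 := by
    intro x
    split_ifs <;> simp_all
  simp only [this]
  rw [← Finset.sum_filter, Finset.sum_const, nsmul_eq_mul, mul_one]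
  congr 1
  unfold N
  refine Finset.card_bij (fun y _ => m + y) ?_ ?_ ?_
  · intro y hy
    simp only [Finset.mem_filter] at hy ⊢
    refine ⟨hW y hy.1, ?_, ?_⟩
    · simpa using hy.1
    · convert hy.2 using 1; ring
  · intro a _ b _ h
    simpa using h
  · intro x hx
    simp only [Finset.mem_filter] at hx
    refine ⟨x - m, ?_, by ring⟩
    simp only [Finset.mem_filter]
    exact ⟨hx.2.1, by convert hx.2.2 using 1; ring⟩

/-! ## The Hilbert space -/

section Kernel

variable (𝕜 : Type) [RCLike 𝕜]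

/-- the kernel matrix -/
noncomputable def kmat : Matrix ℤ ℤ (𝕜 →L[𝕜] 𝕜) :=
  Matrix.of fun m n => ((phi (m - n) : ℝ) : 𝕜) • ContinuousLinearMap.id 𝕜 𝕜

lemma kmat_herm : (kmat 𝕜).IsHermitian := by
  ext m n
  simp only [Matrix.conjTranspose_apply, kmat, Matrix.of_apply]
  rw [star_smul]
  rw [show n - m = -(m - n) by ring, phi_neg]
  simp only [RCLike.star_def, RCLike.conj_ofReal]
  have : star (ContinuousLinearMap.id 𝕜 𝕜) = ContinuousLinearMap.id 𝕜 𝕜 := star_one _
  rw [this]

lemma kmat_posSemidef : (kmat 𝕜).PosSemidef := by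
  have h := (RKHS.posSemidef_tfae (K := kmat 𝕜)).out 0 2
  rw [h]
  refine ⟨kmat_herm 𝕜, ?_⟩
  intro vv
  -- choose K large
  obtain ⟨K, hK⟩ : ∃ K : ℕ, ∀ x ∈ vv.support, ∀ y ∈ vv.support, (y - x).natAbs ≤ K := by
    refine ⟨(vv.support.sup fun x => vv.support.sup fun y => (y - x).natAbs), ?_⟩
    intro x hx y hy
    refine le_trans ?_ (Finset.le_sup (f := fun x => vv.support.sup fun y => (y - x).natAbs) hx)
    exact Finset.le_sup (f := fun y => (y - x).natAbs) hy
  let W : Finset ℤ := vv.support.biUnion (fun m => (S K).image (fun y => m + y))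
  have hW : ∀ m ∈ vv.support, ∀ y ∈ S K, m + y ∈ W := by
    intro m hm y hy
    simp only [W, Finset.mem_biUnion, Finset.mem_image]
    exact ⟨m, hm, y, hy, rfl⟩
  have key : (vv.sum fun x w ↦ vv.sum fun x' w' ↦ ⟪kmat 𝕜 x' x w, w'⟫_𝕜) =
      ((((2 : ℝ) ^ K)⁻¹ * ∑ t ∈ W, ‖∑ m ∈ vv.support,
        (((if t - m ∈ S K then (1 : ℝ) else 0) : ℝ) : 𝕜) * vv m‖ ^ 2 : ℝ) : 𝕜) := by
    simp only [Finsupp.sum, kmat, Matrix.of_apply]
    have h1 : ∀ x ∈ vv.support, ∀ y ∈ vv.support,
        ⟪(((phi (y - x) : ℝ) : 𝕜) • ContinuousLinearMap.id 𝕜 𝕜) (vv x), vv y⟫_𝕜 =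
        (((2 : ℝ) ^ K)⁻¹ : ℝ) * ∑ t ∈ W, ((((if t - y ∈ S K then (1 : ℝ) else 0) : ℝ) : 𝕜) * vv y) *
          (((if t - x ∈ S K then (1 : ℝ) else 0 : ℝ) : 𝕜) * conj (vv x)) := by
      intro x hx y hy
      rw [← rho_eq_phi K _ (hK x hx y hy), rho, N_gram K y x W (hW y hy)]
      simp only [FunLike.coe_smul, Pi.smul_apply, ContinuousLinearMap.id_apply, smul_eq_mul,
        RCLike.inner_apply, map_mul, RCLike.conj_ofReal]
      push_cast
      rw [Finset.sum_div, Finset.sum_mul, Finset.mul_sum, Finset.mul_sum]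
      refine Finset.sum_congr rfl (fun t _ => ?_)
      field_simp
    rw [Finset.sum_congr rfl (fun x hx => Finset.sum_congr rfl (fun y hy => h1 x hx y hy))]
    simp only [← Finset.mul_sum]
    rw [RCLike.ofReal_mul]
    congr 1
    rw [Finset.sum_congr rfl (fun x hx => Finset.sum_comm)]
    rw [Finset.sum_comm]
    push_cast
    refine Finset.sum_congr rfl (fun t _ => ?_)
    rw [← RCLike.mul_conj]
    rw [map_sum, Finset.sum_mul_sum, Finset.sum_comm]
    refine Finset.sum_congr rfl (fun m _ => Finset.sum_congr rfl (fun n _ => ?_))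
    rw [map_mul, RCLike.conj_ofReal]
  rw [key, RCLike.ofReal_re]
  positivity

/-- A stationary family with dense span is the orbit of a unitary. -/
theorem exists_shift_of_gram {H : Type} [NormedAddCommGroup H] [InnerProductSpace 𝕜 H]
    [CompleteSpace H] (v : ℤ → H) (a : ℤ → 𝕜) (hgram : ∀ m n, ⟪v m, v n⟫_𝕜 = a (m - n))
    (hdense : DenseRange (Finsupp.linearCombination 𝕜 v)) :
    ∃ U : H ≃ₗᵢ[𝕜] H, ∀ n, U (v n) = v (n + 1) := by
  let e : (ℤ →₀ 𝕜) →ₗ[𝕜] H := Finsupp.linearCombination 𝕜 v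
  let f : (ℤ →₀ 𝕜) ≃ₗ[𝕜] (ℤ →₀ 𝕜) := Finsupp.domLCongr (Equiv.addRight (1 : ℤ))
  have hfe' : e ∘ₗ f.toLinearMap = Finsupp.linearCombination 𝕜 (fun i => v (i + 1)) := by
    ext i
    simp [e, f]
  have hfe : ∀ c : ℤ →₀ 𝕜, e (f c) = Finsupp.linearCombination 𝕜 (fun i => v (i + 1)) c := by
    intro c
    exact LinearMap.congr_fun hfe' c
  have hnorm : ∀ c, ‖e (f c)‖ = ‖e c‖ := by
    intro c
    have : ⟪e (f c), e (f c)⟫_𝕜 = ⟪e c, e c⟫_𝕜 := by
      rw [hfe]
      simp only [e, Finsupp.linearCombination_apply]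
      simp only [Finsupp.sum, sum_inner, inner_sum, inner_smul_left, inner_smul_right, hgram]
      have : ∀ i j : ℤ, i + 1 - (j + 1) = i - j := fun i j => by ring
      simp only [this]
    rw [@norm_eq_sqrt_re_inner 𝕜, @norm_eq_sqrt_re_inner 𝕜, this]
  refine ⟨f.extendOfIsometry e e hdense hdense hnorm, ?_⟩
  intro n
  have h1 : v n = e (Finsupp.single n 1) := by simp [e]
  rw [h1, LinearEquiv.extendOfIsometry_eq, hfe]
  simp

/-- The weighted shift exists: there is a Hilbert space with a unitary `U` and a vector `ξ`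
with `⟪ξ, U ^ n ξ⟫ = φ n`. -/
theorem exists_unitary : ∃ (H : Type) (_ : NormedAddCommGroup H) (_ : InnerProductSpace 𝕜 H)
    (_ : CompleteSpace H) (U : H ≃ₗᵢ[𝕜] H) (v : ℤ → H),
    (∀ n, U (v n) = v (n + 1)) ∧ ∀ m n, ⟪v m, v n⟫_𝕜 = ((phi (m - n) : ℝ) : 𝕜) := by
  have : Fact (kmat 𝕜).PosSemidef := ⟨kmat_posSemidef 𝕜⟩
  let H := RKHS.OfKernel (kmat 𝕜)
  let v : ℤ → H := fun n => RKHS.kerFun H n 1
  have hgram : ∀ m n, ⟪v m, v n⟫_𝕜 = ((phi (m - n) : ℝ) : 𝕜) := by
    intro m n
    simp only [v]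
    rw [← RKHS.kernel_inner]
    rw [RKHS.OfKernel.kernel_ofKernel]
    simp only [kmat, Matrix.of_apply, FunLike.coe_smul, Pi.smul_apply,
      ContinuousLinearMap.id_apply, smul_eq_mul, RCLike.inner_apply, RCLike.conj_ofReal,
      mul_one, one_mul]
    rw [show n - m = -(m - n) by ring, phi_neg]
  have hdense : DenseRange (Finsupp.linearCombination 𝕜 v) := by
    have h := RKHS.kerFun_dense (H := H) (𝕜 := 𝕜) (X := ℤ) (V := 𝕜)
    rw [DenseRange, ← LinearMap.coe_range, Finsupp.range_linearCombination]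
    rw [← Submodule.dense_iff_topologicalClosure_eq_top] at h
    refine h.mono ?_
    refine Submodule.span_le.2 ?_
    rintro _ ⟨x, w, rfl⟩
    have : RKHS.kerFun H x w = w • v x := by
      simp only [v]
      rw [← map_smul]
      simp
    rw [this]
    exact Submodule.smul_mem _ _ (Submodule.subset_span ⟨x, rfl⟩)
  obtain ⟨U, hU⟩ := exists_shift_of_gram 𝕜 v (fun n => ((phi n : ℝ) : 𝕜)) hgram hdense
  exact ⟨H, inferInstance, inferInstance, inferInstance, U, v, hU, hgram⟩

/-- The closed unit ball of a Hilbert space in its weak topology. -/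
def weakBall (H : Type) [NormedAddCommGroup H] [InnerProductSpace 𝕜 H] : Set (WeakSpace 𝕜 H) :=
  (toWeakSpace 𝕜 H) '' (Metric.closedBall (0 : H) 1)

lemma mem_weakBall (H : Type) [NormedAddCommGroup H] [InnerProductSpace 𝕜 H]
    (x : WeakSpace 𝕜 H) : x ∈ weakBall 𝕜 H ↔ ‖(toWeakSpace 𝕜 H).symm x‖ ≤ 1 := by
  unfold weakBall
  constructor
  · rintro ⟨y, hy, rfl⟩
    simpa using hy
  · intro h
    exact ⟨(toWeakSpace 𝕜 H).symm x, by simpa using h, by simp⟩

lemma continuous_to_weakSpace {X : Type*} [TopologicalSpace X] {H : Type*}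
    [NormedAddCommGroup H] [InnerProductSpace 𝕜 H] [CompleteSpace H] (g : X → WeakSpace 𝕜 H)
    (hg : ∀ y : H, Continuous fun x => ⟪y, (toWeakSpace 𝕜 H).symm (g x)⟫_𝕜) : Continuous g := by
  refine WeakBilin.continuous_of_continuous_eval _ (fun l => ?_)
  have := hg ((InnerProductSpace.toDual 𝕜 H).symm l)
  simp only [InnerProductSpace.toDual_symm_apply] at this
  exact this

lemma isCompact_weakBall (H : Type) [NormedAddCommGroup H] [InnerProductSpace 𝕜 H]
    [CompleteSpace H] : IsCompact (weakBall 𝕜 H) := by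
  let g : WeakDual 𝕜 H → WeakSpace 𝕜 H := fun l =>
    toWeakSpace 𝕜 H ((InnerProductSpace.toDual 𝕜 H).symm (WeakDual.toStrongDual l))
  have hg : Continuous g := by
    refine continuous_to_weakSpace 𝕜 g (fun y => ?_)
    have : (fun x => ⟪y, (toWeakSpace 𝕜 H).symm (g x)⟫_𝕜) =
        fun x : WeakDual 𝕜 H => (starRingEnd 𝕜) (x y) := by
      funext x
      simp only [g, LinearEquiv.symm_apply_apply]
      rw [← inner_conj_symm]
      simp
    rw [this]
    exact RCLike.continuous_conj.comp (WeakDual.eval_continuous y)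
  have h := (WeakDual.isCompact_closedBall (𝕜 := 𝕜) (E := H) 0 1).image hg
  convert h using 1
  ext x
  rw [mem_weakBall]
  constructor
  · intro hx
    refine ⟨StrongDual.toWeakDual (InnerProductSpace.toDual 𝕜 H ((toWeakSpace 𝕜 H).symm x)), ?_, ?_⟩
    · simpa using hx
    · simp [g]
  · rintro ⟨l, hl, rfl⟩
    simpa [g] using hl

/-- A unitary as a homeomorphism for the weak topology. -/
noncomputable def weakHomeo {H : Type} [NormedAddCommGroup H] [InnerProductSpace 𝕜 H]
    (U : H ≃ₗᵢ[𝕜] H) : WeakSpace 𝕜 H ≃ₜ WeakSpace 𝕜 H where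
  toFun := WeakSpace.map (U.toContinuousLinearEquiv : H →L[𝕜] H)
  invFun := WeakSpace.map (U.symm.toContinuousLinearEquiv : H →L[𝕜] H)
  left_inv x := by
    exact U.symm_apply_apply x
  right_inv x := by
    exact U.apply_symm_apply x
  continuous_toFun := (WeakSpace.map (U.toContinuousLinearEquiv : H →L[𝕜] H)).continuous
  continuous_invFun := (WeakSpace.map (U.symm.toContinuousLinearEquiv : H →L[𝕜] H)).continuous

lemma weakHomeo_symm_apply {H : Type} [NormedAddCommGroup H] [InnerProductSpace 𝕜 H]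
    (U : H ≃ₗᵢ[𝕜] H) (x : WeakSpace 𝕜 H) :
    (toWeakSpace 𝕜 H).symm (weakHomeo 𝕜 U x) = U ((toWeakSpace 𝕜 H).symm x) := rfl

lemma zpow_orbit {X : Type*} [TopologicalSpace X] (T : X ≃ₜ X) (g : ℤ → X)
    (hg : ∀ n, T (g n) = g (n + 1)) (n : ℤ) : (T ^ n : X ≃ₜ X) (g 0) = g n := by
  induction n with
  | zero => simp
  | succ n ih =>
    rw [add_comm, zpow_add, zpow_one, add_comm, ← hg, ← ih]
    rfl
  | pred n ih =>
    rw [sub_eq_add_neg, add_comm, zpow_add, add_comm, zpow_neg_one]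
    have h1 : T (g (-(n : ℤ) + -1)) = g (-n) := by
      rw [hg]; congr 1; ring
    have h2 : T⁻¹ (g (-(n : ℤ))) = g (-(n : ℤ) + -1) := by
      rw [← h1]
      exact T.symm_apply_apply _
    rw [← h2, ← ih]
    rfl

/-- The cut-off function. -/
noncomputable def cutoff (t : ℝ) : ℝ := max 0 (1 - 4 * |t - 1 / 2|)

lemma continuous_cutoff : Continuous cutoff := by
  unfold cutoff; fun_prop

lemma cutoff_phi (n : ℤ) : cutoff (phi n) = Set.indicator D 1 n := by
  unfold cutoff
  by_cases h : n = 0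
  · subst h
    have h0 : (0 : ℤ) ∉ D := by
      rintro ⟨k, hk⟩
      rcases hk with hk | hk
      · have := pow_pos (show (0 : ℤ) < 3 by norm_num) k
        omega
      · have := pow_pos (show (0 : ℤ) < 3 by norm_num) k
        omega
    rw [Set.indicator_of_notMem h0, phi_zero]
    norm_num [abs_of_pos]
  · rcases phi_dichotomy n h with ⟨h1, h2⟩ | ⟨h1, h2⟩
    · rw [Set.indicator_of_mem h1, h2]
      simp
    · rw [Set.indicator_of_notMem h1]
      have h3 := phi_pos n
      rw [abs_of_nonpos (by linarith)]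
      apply max_eq_left
      linarith

theorem isHilbertFunction_indicator :
    IsHilbertFunction.{0, 0} 𝕜 (Set.indicator D 1) := by
  obtain ⟨H, _, _, _, U, v, hU, hv⟩ := exists_unitary 𝕜
  have hv1 : ∀ n, ‖v n‖ ≤ 1 := by
    intro n
    rw [@norm_eq_sqrt_re_inner 𝕜, hv]
    simp [phi_zero]
  let X := weakBall 𝕜 H
  have : CompactSpace X := isCompact_iff_compactSpace.1 (isCompact_weakBall 𝕜 H)
  let T : X ≃ₜ X := (weakHomeo 𝕜 U).subtype (fun x => by
    rw [mem_weakBall, mem_weakBall, weakHomeo_symm_apply, LinearIsometryEquiv.norm_map])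
  let g : ℤ → X := fun n => ⟨toWeakSpace 𝕜 H (v n), by rw [mem_weakBall]; simpa using hv1 n⟩
  have hg : ∀ n, T (g n) = g (n + 1) := by
    intro n
    apply Subtype.ext
    show (weakHomeo 𝕜 U) (toWeakSpace 𝕜 H (v n)) = toWeakSpace 𝕜 H (v (n + 1))
    rw [← hU]
    rfl
  refine ⟨X, inferInstance, this, inferInstance, T, g 0,
    fun x => cutoff (RCLike.re ⟪v 0, (toWeakSpace 𝕜 H).symm (x : WeakSpace 𝕜 H)⟫_𝕜), ?_, ?_, ?_⟩
  · refine ⟨H, inferInstance, inferInstance, inferInstance, U, Subtype.val, IsEmbedding.subtypeVal, ?_⟩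
    intro x
    rfl
  · refine continuous_cutoff.comp (RCLike.continuous_re.comp ?_)
    have h1 : Continuous fun x : WeakSpace 𝕜 H => ⟪v 0, (toWeakSpace 𝕜 H).symm x⟫_𝕜 := by
      exact WeakBilin.eval_continuous (topDualPairing 𝕜 H).flip (innerSL 𝕜 (v 0))
    exact h1.comp continuous_subtype_val
  · intro n
    rw [zpow_orbit T g hg]
    simp only [g, LinearEquiv.symm_apply_apply, hv, zero_sub, phi_neg, RCLike.ofReal_re, cutoff_phi]

end Kernel

/-! ## Non-representability -/

section Abstract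

variable {𝕜 : Type*} [RCLike 𝕜] {H : Type*} [NormedAddCommGroup H] [InnerProductSpace 𝕜 H]

/-- A bounded sequence lying in the closed span of `s` and weakly null against `s` is weakly
null. -/
lemma tendsto_inner_zero [CompleteSpace H] {x : ℕ → H} {C : ℝ} (hC : ∀ k, ‖x k‖ ≤ C) (s : Set H)
    (hs : ∀ z ∈ s, Tendsto (fun k => ⟪z, x k⟫_𝕜) atTop (𝓝 0)) (hx : ∀ k, x k ∈ s) (z : H) :
    Tendsto (fun k => ⟪z, x k⟫_𝕜) atTop (𝓝 0) := by
  have hC0 : 0 ≤ C := le_trans (norm_nonneg _) (hC 0)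
  -- the set of good vectors
  let Z : Submodule 𝕜 H :=
    { carrier := {z | Tendsto (fun k => ⟪z, x k⟫_𝕜) atTop (𝓝 0)}
      add_mem' := by
        intro a b ha hb
        simp only [Set.mem_ofPred_eq] at ha hb ⊢
        simp only [inner_add_left]
        simpa using ha.add hb
      zero_mem' := by simp
      smul_mem' := by
        intro c a ha
        simp only [Set.mem_ofPred_eq] at ha ⊢
        simp only [inner_smul_left]
        simpa using ha.const_mul ((starRingEnd 𝕜) c) }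
  have hZc : IsClosed (Z : Set H) := by
    rw [← isSeqClosed_iff_isClosed]
    intro u a hu hua
    show Tendsto (fun k => ⟪a, x k⟫_𝕜) atTop (𝓝 0)
    rw [Metric.tendsto_atTop]
    intro ε hε
    have h1 : Tendsto (fun n => ‖a - u n‖ * C) atTop (𝓝 0) := by
      have : Tendsto (fun n => ‖a - u n‖) atTop (𝓝 0) := by
        have := (tendsto_iff_norm_sub_tendsto_zero.1 hua)
        simpa [norm_sub_rev] using this
      simpa using this.mul_const C
    obtain ⟨n, hn⟩ := (h1.eventually (gt_mem_nhds (half_pos hε))).exists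
    have h2 := (Metric.tendsto_atTop.1 (show Tendsto (fun k => ⟪u n, x k⟫_𝕜) atTop (𝓝 0) from hu n))
      (ε / 2) (half_pos hε)
    obtain ⟨N, hN⟩ := h2
    refine ⟨N, fun k hk => ?_⟩
    have h3 := hN k hk
    rw [dist_zero_right] at h3 ⊢
    have h4 : ⟪a, x k⟫_𝕜 = ⟪a - u n, x k⟫_𝕜 + ⟪u n, x k⟫_𝕜 := by
      rw [← inner_add_left]; simp
    calc ‖⟪a, x k⟫_𝕜‖ ≤ ‖⟪a - u n, x k⟫_𝕜‖ + ‖⟪u n, x k⟫_𝕜‖ := by rw [h4]; exact norm_add_le _ _
      _ ≤ ‖a - u n‖ * ‖x k‖ + ‖⟪u n, x k⟫_𝕜‖ := by gcongr; exact norm_inner_le_norm _ _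
      _ ≤ ‖a - u n‖ * C + ‖⟪u n, x k⟫_𝕜‖ := by gcongr; exact hC k
      _ < ε / 2 + ε / 2 := by gcongr
      _ = ε := by ring
  let K : Submodule 𝕜 H := (Submodule.span 𝕜 s).topologicalClosure
  have hKZ : K ≤ Z := by
    refine Submodule.topologicalClosure_minimal _ ?_ hZc
    exact Submodule.span_le.2 (fun z hz => hs z hz)
  have hK : ∀ k, x k ∈ K := fun k =>
    Submodule.le_topologicalClosure _ (Submodule.subset_span (hx k))
  have : K.HasOrthogonalProjection := by
    have : CompleteSpace K := Submodule.topologicalClosure.completeSpace _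
    infer_instance
  have h1 : ∀ k, ⟪z, x k⟫_𝕜 = ⟪K.starProjection z, x k⟫_𝕜 := by
    intro k
    rw [← sub_eq_zero, ← inner_sub_left]
    exact Submodule.inner_left_of_mem_orthogonal (hK k) (K.sub_starProjection_mem_orthogonal z)
  simp only [h1]
  exact hKZ (K.starProjection_apply_mem z)

/-- Abstract core: a unitary cannot have a nonzero nilpotent weak limit along its orbit. -/
lemma nilpotent_limit_eq_zero [CompleteSpace H] (U : H ≃ₗᵢ[𝕜] H) (w q : ℤ → H)
    (hw : ∀ n, U (w n) = w (n + 1)) (hq : ∀ n, U (q n) = q (n + 1)) (N : ℕ → ℤ)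
    (h1 : ∀ z, Tendsto (fun k => ⟪z, w (N k)⟫_𝕜) atTop (𝓝 ⟪z, q 0⟫_𝕜))
    (h2 : ∀ (m : ℤ) z, Tendsto (fun k => ⟪z, q (m + N k)⟫_𝕜) atTop (𝓝 0)) : q 0 = 0 := by
  have hqq : ∀ m n j : ℤ, ⟪q m, q n⟫_𝕜 = ⟪q (m + j), q (n + j)⟫_𝕜 := by
    intro m n j
    induction j with
    | zero => simp
    | succ j ih =>
      rw [ih, ← U.inner_map_map, hq, hq]
      simp only [add_assoc]
    | pred j ih =>
      rw [ih]
      have e1 : m + -(j : ℤ) = (m + (-(j : ℤ) - 1)) + 1 := by ring
      have e2 : n + -(j : ℤ) = (n + (-(j : ℤ) - 1)) + 1 := by ring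
      rw [e1, e2, ← hq, ← hq, U.inner_map_map]
  have hqw : ∀ m n j : ℤ, ⟪q m, w n⟫_𝕜 = ⟪q (m + j), w (n + j)⟫_𝕜 := by
    intro m n j
    induction j with
    | zero => simp
    | succ j ih =>
      rw [ih, ← U.inner_map_map, hq, hw]
      simp only [add_assoc]
    | pred j ih =>
      rw [ih]
      have e1 : m + -(j : ℤ) = (m + (-(j : ℤ) - 1)) + 1 := by ring
      have e2 : n + -(j : ℤ) = (n + (-(j : ℤ) - 1)) + 1 := by ring
      rw [e1, e2, ← hq, ← hw, U.inner_map_map]
  have hnorm : ∀ n, ‖q n‖ ≤ ‖q 0‖ := by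
    intro n
    have := hqq 0 0 n
    rw [zero_add] at this
    rw [@norm_eq_sqrt_re_inner 𝕜 _ _ _ _ (q n), ← this, ← norm_eq_sqrt_re_inner]
  have h3 : ∀ z, Tendsto (fun k => ⟪z, q (-N k)⟫_𝕜) atTop (𝓝 0) := by
    refine tendsto_inner_zero (fun k => hnorm _) (Set.range q) ?_ (fun k => ⟨_, rfl⟩)
    rintro _ ⟨m, rfl⟩
    have h4 := h2 m (q 0)
    have h5 : (fun k => ⟪q m, q (-N k)⟫_𝕜) = fun k => (starRingEnd 𝕜) ⟪q 0, q (m + N k)⟫_𝕜 := by
      funext k
      rw [inner_conj_symm, hqq m (-N k) (N k)]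
      simp
    rw [h5]
    have h6 := (RCLike.continuous_conj.tendsto _).comp h4
    rw [map_zero] at h6
    exact h6
  have h6 : Tendsto (fun k => ⟪q 0, w (N k)⟫_𝕜) atTop (𝓝 0) := by
    have h7 : (fun k => ⟪q 0, w (N k)⟫_𝕜) = fun k => (starRingEnd 𝕜) ⟪w 0, q (-N k)⟫_𝕜 := by
      funext k
      rw [inner_conj_symm, hqw 0 (N k) (-N k)]
      simp
    rw [h7]
    have h8 := (RCLike.continuous_conj.tendsto _).comp (h3 (w 0))
    rw [map_zero] at h8
    exact h8
  have h8 := tendsto_nhds_unique (h1 (q 0)) h6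
  exact inner_self_eq_zero.1 h8

end Abstract

section Concrete

/-- the function `1_D` -/
noncomputable def fD : ℤ → ℝ := Set.indicator D 1

lemma fD_mem (n : ℤ) (h : n ∈ D) : fD n = 1 := Set.indicator_of_mem h _

lemma fD_notMem (n : ℤ) (h : n ∉ D) : fD n = 0 := Set.indicator_of_notMem h _

/-- the limit point `δ_0` -/
noncomputable def pD : ℤ → ℝ := fun n => if n = 0 then 1 else 0

lemma eventually_fD (m : ℤ) : ∀ᶠ k : ℕ in atTop, fD (m + 3 ^ k) = pD m := by
  filter_upwards [eventually_phi m, (tendsto_pow_atTop_atTop_of_one_lt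
    (show (1 : ℤ) < 3 by norm_num)).eventually_gt_atTop (-m)] with k hk hk2
  have hne : m + 3 ^ k ≠ 0 := by omega
  unfold pD
  split_ifs with h
  · subst h
    exact fD_mem _ ⟨k, by simp⟩
  · rcases phi_dichotomy _ hne with ⟨h1, h2⟩ | ⟨h1, h2⟩
    · rw [hk] at h2
      have := phi_le_half m h
      linarith
    · exact fD_notMem _ h1

lemma eventually_pD (m : ℤ) : ∀ᶠ k : ℕ in atTop, pD (m + 3 ^ k) = 0 := by
  filter_upwards [(tendsto_pow_atTop_atTop_of_one_lt
    (show (1 : ℤ) < 3 by norm_num)).eventually_gt_atTop (-m)] with k hk2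
  have hne : m + 3 ^ k ≠ 0 := by omega
  simp [pD, hne]

lemma tendsto_translate_fD (m : ℤ) :
    Tendsto (fun k : ℕ => translate fD (m + 3 ^ k)) atTop (𝓝 (translate pD m)) := by
  rw [tendsto_pi_nhds]
  intro j
  refine tendsto_const_nhds.congr' ?_
  filter_upwards [eventually_fD (j + m)] with k hk
  simp only [translate]
  rw [← hk]
  ring_nf

lemma tendsto_translate_pD (m : ℤ) :
    Tendsto (fun k : ℕ => translate pD (m + 3 ^ k)) atTop (𝓝 0) := by
  rw [tendsto_pi_nhds]
  intro j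
  refine tendsto_const_nhds.congr' ?_
  filter_upwards [eventually_pD (j + m)] with k hk
  simp only [translate]
  rw [← add_assoc, hk]
  rfl

lemma translate_fD_mem (n : ℤ) : translate fD n ∈ cyclicSet fD := subset_closure ⟨n, rfl⟩

lemma translate_pD_mem (n : ℤ) : translate pD n ∈ cyclicSet fD :=
  isClosed_closure.mem_of_tendsto (tendsto_translate_fD n)
    (Eventually.of_forall fun _ => translate_fD_mem _)

lemma zero_mem : (0 : ℤ → ℝ) ∈ cyclicSet fD :=
  isClosed_closure.mem_of_tendsto (tendsto_translate_pD 0)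
    (Eventually.of_forall fun _ => translate_pD_mem _)

theorem not_representable (𝕜 : Type) [RCLike 𝕜] :
    ¬ HilbertRepresentable.{u, 0} 𝕜 (cyclicShift fD) := by
  rintro ⟨H, _, _, _, U, α, hα, hT⟩
  -- the points of the orbit and of its limits
  let y : ℤ → cyclicSet fD := fun n => ⟨translate fD n, translate_fD_mem n⟩
  let p : ℤ → cyclicSet fD := fun n => ⟨translate pD n, translate_pD_mem n⟩
  let o : cyclicSet fD := ⟨0, zero_mem⟩
  have hy : ∀ n, cyclicShift fD (y n) = y (n + 1) := by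
    intro n
    apply Subtype.ext
    exact shift_translate fD n
  have hp : ∀ n, cyclicShift fD (p n) = p (n + 1) := by
    intro n
    apply Subtype.ext
    exact shift_translate pD n
  have ho : cyclicShift fD o = o := by
    apply Subtype.ext
    rfl
  let β : cyclicSet fD → H := fun x => (toWeakSpace 𝕜 H).symm (α x)
  have hβ : ∀ z : H, Continuous fun x => ⟪z, β x⟫_𝕜 := by
    intro z
    have h1 : Continuous fun x : WeakSpace 𝕜 H => ⟪z, (toWeakSpace 𝕜 H).symm x⟫_𝕜 := by
      exact WeakBilin.eval_continuous (topDualPairing 𝕜 H).flip (innerSL 𝕜 z)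
    exact h1.comp hα.continuous
  have hyp : ∀ m : ℤ, Tendsto (fun k : ℕ => y (m + 3 ^ k)) atTop (𝓝 (p m)) := by
    intro m
    rw [tendsto_subtype_rng]
    exact tendsto_translate_fD m
  have hpo : ∀ m : ℤ, Tendsto (fun k : ℕ => p (m + 3 ^ k)) atTop (𝓝 o) := by
    intro m
    rw [tendsto_subtype_rng]
    exact tendsto_translate_pD m
  have key := nilpotent_limit_eq_zero (𝕜 := 𝕜) U (fun n => β (y n) - β o) (fun n => β (p n) - β o)
    (fun n => by
      simp only [map_sub, β, ← hT, hy, ho])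
    (fun n => by
      simp only [map_sub, β, ← hT, hp, ho])
    (fun k => 3 ^ k)
    (fun z => by
      simp only [inner_sub_right]
      have := ((hβ z).tendsto _).comp (hyp 0)
      simp only [zero_add] at this
      exact this.sub_const _)
    (fun m z => by
      simp only [inner_sub_right]
      have := (((hβ z).tendsto _).comp (hpo m)).sub_const (⟪z, β o⟫_𝕜)
      simpa using this)
  have h1 : β (p 0) = β o := sub_eq_zero.1 key
  have h2 : p 0 = o := hα.injective ((toWeakSpace 𝕜 H).symm.injective h1)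
  have h3 : translate pD 0 = 0 := congrArg Subtype.val h2
  have h4 := congrFun h3 0
  simp [translate, pD] at h4

end Concrete

/-- **Main result.** Let `𝕜` be `ℝ` or `ℂ`.  The characteristic function of
`D = {3 ^ k : k ≥ 0} ∪ {- 3 ^ k : k ≥ 0}` is a Hilbert function on `ℤ`, but its cyclic system is
not Hilbert representable. -/
theorem result (𝕜 : Type) [RCLike 𝕜] :
    IsHilbertFunction.{0, 0} 𝕜 (Set.indicator D 1) ∧
      ¬ HilbertRepresentable.{u, 0} 𝕜 (cyclicShift (Set.indicator D 1)) :=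
  ⟨isHilbertFunction_indicator 𝕜, not_representable 𝕜⟩

end Pool.Agent.Results.MP_4abea4_an.CharacteristicFunction
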